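import Pool.Agent.H30.PF.Targets
import Pool.Agent.H75.PS.Pair

/-!
Brun-Titchmarsh inequality with a free constant (module BT).
-/

set_option autoImplicit false

open Finset ArithmeticFunction

namespace Pool.Agent.H48.PF

open Pool.Agent.H30.PF Pool.Agent.H75.PS BoundingSieve

/-- `n ↦ 1/n` -/
noncomputable def nuI : ArithmeticFunction ℝ := ⟨fun n => (n : ℝ)⁻¹, by simp⟩

theorem nuI_apply (n : ℕ) : nuI n = (n : ℝ)⁻¹ := rfl

theorem nuI_mult : nuI.IsMultiplicative := by
  refine ⟨by simp [nuI_apply], ?_⟩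
  intro m n _
  rw [nuI_apply, nuI_apply, nuI_apply]
  push_cast
  rw [mul_inv]

/-- The sieve problem. -/
noncomputable def sb (x d a R : ℕ) : BoundingSieve where
  support := (Finset.Icc 1 x).filter (fun n => n % d = a % d)
  prodPrimes := ∏ p ∈ SP d R, p
  prodPrimes_squarefree := SP_sqf d R
  weights := fun _ => 1
  weights_nonneg := fun _ => zero_le_one
  totalMass := (x : ℝ) / d
  nu := nuI
  nu_mult := nuI_mult
  nu_pos_of_prime := by
    intro p hp _
    rw [nuI_apply]
    have : (0:ℝ) < p := by exact_mod_cast hp.pos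
    positivity
  nu_lt_one_of_prime := by
    intro p hp _
    rw [nuI_apply]
    have : (1:ℝ) < p := by exact_mod_cast hp.one_lt
    exact inv_lt_one_of_one_lt₀ this

theorem count_mod (x m c : ℕ) (hm : 0 < m) :
    |((((Finset.Icc 1 x).filter (fun n => n % m = c % m)).card : ℕ) : ℝ) - (x : ℝ) / m| ≤ 1 := by
  have h1 : (Finset.Icc 1 x).filter (fun n => n % m = c % m) =
      (Finset.Ioc 0 x).filter (fun n => n ≡ c [MOD m]) := by
    ext n
    simp only [Finset.mem_filter, Finset.mem_Icc, Finset.mem_Ioc, Nat.ModEq]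
    constructor
    · rintro ⟨⟨h1, h2⟩, h3⟩
      exact ⟨⟨by omega, h2⟩, h3⟩
    · rintro ⟨⟨h1, h2⟩, h3⟩
      exact ⟨⟨by omega, h2⟩, h3⟩
  rw [h1]
  have h2 := Nat.Ioc_filter_modEq_card (a := 0) (b := x) (r := m) hm c
  have hmR : (0:ℝ) < m := by exact_mod_cast hm
  have hmQ : (0:ℚ) < m := by exact_mod_cast hm
  set N := ((Finset.Ioc 0 x).filter (fun n => n ≡ c [MOD m])).card with hN
  have h3 : (N : ℤ) = max (⌊((x : ℚ) - c) / m⌋ - ⌊(((0 : ℕ) : ℚ) - c) / m⌋) 0 := h2
  have h4 : ⌊(((0 : ℕ) : ℚ) - c) / m⌋ ≤ ⌊((x : ℚ) - c) / m⌋ := by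
    apply Int.floor_le_floor
    apply div_le_div_of_nonneg_right _ hmQ.le
    have : (0:ℚ) ≤ x := by positivity
    push_cast
    linarith
  rw [max_eq_left (by linarith)] at h3
  have a1 := Int.floor_le (((x : ℚ) - c) / m)
  have a2 := Int.lt_floor_add_one (((x : ℚ) - c) / m)
  have a3 := Int.floor_le ((((0 : ℕ) : ℚ) - c) / m)
  have a4 := Int.lt_floor_add_one ((((0 : ℕ) : ℚ) - c) / m)
  have h5 : |(N : ℚ) - (x : ℚ) / m| ≤ 1 := by
    have h6 : (N : ℚ) = (⌊((x : ℚ) - c) / m⌋ : ℚ) - (⌊(((0 : ℕ) : ℚ) - c) / m⌋ : ℚ) := by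
      have : ((N : ℤ) : ℚ) = _ := congrArg (fun z : ℤ => (z : ℚ)) h3
      push_cast at this ⊢
      exact this
    have h7 : ((x : ℚ) - c) / m = (x : ℚ) / m - c / m := sub_div _ _ _
    have h8 : (((0 : ℕ) : ℚ) - c) / m = - (c / m) := by
      push_cast
      rw [zero_sub, neg_div]
    rw [h8] at a3 a4 h6
    rw [h7] at a1 a2 h6
    rw [h6, abs_le]
    constructor <;> linarith
  have h9 : ((|(N : ℚ) - (x : ℚ) / m| : ℚ) : ℝ) ≤ ((1 : ℚ) : ℝ) := by exact_mod_cast h5
  push_cast at h9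
  exact h9

theorem sb_rem (x d a R e : ℕ) (hd : 0 < d) (he : e ∣ ∏ p ∈ SP d R, p) :
    |(sb x d a R).rem e| ≤ 1 := by
  have hco : Nat.Coprime d e := (coprime_of_dvd_SP he).symm
  have he0 : 0 < e := Nat.pos_of_ne_zero ((SP_sqf d R).squarefree_of_dvd he).ne_zero
  have h := count_mod x (d * e) ((Nat.chineseRemainder hco a 0 : ℕ)) (Nat.mul_pos hd he0)
  have hc := (Nat.chineseRemainder hco a 0).2
  set c : ℕ := (Nat.chineseRemainder hco a 0 : ℕ) with hcdef
  have h1 : (sb x d a R).multSum e =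
      ((((Finset.Icc 1 x).filter (fun n => n % (d * e) = c % (d * e))).card : ℕ) : ℝ) := by
    unfold multSum sb
    simp only
    rw [Finset.card_filter]
    rw [Finset.sum_filter]
    push_cast
    apply Finset.sum_congr rfl
    intro n _
    have key : (n % d = a % d ∧ e ∣ n) ↔ n % (d * e) = c % (d * e) := by
      constructor
      · rintro ⟨h1, h2⟩
        have h3 : n ≡ c [MOD d] := Nat.ModEq.trans h1 hc.1.symm
        have h4 : n ≡ c [MOD e] :=
          ((Nat.modEq_zero_iff_dvd).mpr h2).trans hc.2.symm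
        exact (Nat.modEq_and_modEq_iff_modEq_mul hco).mp ⟨h3, h4⟩
      · intro h1
        have h2 := (Nat.modEq_and_modEq_iff_modEq_mul hco).mpr h1
        exact ⟨h2.1.trans hc.1, (Nat.modEq_zero_iff_dvd).mp (h2.2.trans hc.2)⟩
    by_cases h1 : n % d = a % d <;> by_cases h2 : e ∣ n
    · rw [if_pos h1, if_pos h2, if_pos (key.mp ⟨h1, h2⟩)]
    · rw [if_pos h1, if_neg h2, if_neg (fun h => h2 (key.mpr h).2)]
    · rw [if_neg h1, if_neg (fun h => h1 (key.mpr h).1)]
    · rw [if_neg h1, if_neg (fun h => h1 (key.mpr h).1)]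
  unfold rem
  rw [h1]
  have h2 : (sb x d a R).nu e * (sb x d a R).totalMass = (x : ℝ) / ((d * e : ℕ) : ℝ) := by
    show (e : ℝ)⁻¹ * ((x : ℝ) / d) = _
    push_cast
    field_simp
  rw [h2]
  exact h

theorem sb_sifted (x d a R : ℕ) :
    ((((Finset.Icc 1 x).filter (fun p => p.Prime ∧ p % d = a % d)).card : ℕ) : ℝ) ≤
      R + (sb x d a R).siftedSum := by
  have h1 : (((Finset.Icc 1 x).filter (fun p => (p.Prime ∧ p % d = a % d) ∧ R < p)).card : ℝ) ≤
      (sb x d a R).siftedSum := by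
    unfold siftedSum sb
    simp only
    rw [Finset.card_filter, Finset.sum_filter]
    push_cast
    apply Finset.sum_le_sum
    intro n _
    by_cases hn : (n.Prime ∧ n % d = a % d) ∧ R < n
    · rw [if_pos hn, if_pos hn.1.2, if_pos]
      apply Nat.Coprime.prod_left
      intro p hp
      have hp' := mem_SP.mp hp
      exact (Nat.coprime_primes hp'.1.2 hn.1.1).mpr (by omega)
    · rw [if_neg hn]
      split_ifs <;> norm_num
  have h2 : ((Finset.Icc 1 x).filter (fun p => p.Prime ∧ p % d = a % d)).card ≤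
      R + ((Finset.Icc 1 x).filter (fun p => (p.Prime ∧ p % d = a % d) ∧ R < p)).card := by
    calc ((Finset.Icc 1 x).filter (fun p => p.Prime ∧ p % d = a % d)).card
        ≤ (Finset.Icc 1 R ∪ (Finset.Icc 1 x).filter
            (fun p => (p.Prime ∧ p % d = a % d) ∧ R < p)).card := by
          apply Finset.card_le_card
          intro p hp
          rw [Finset.mem_filter, Finset.mem_Icc] at hp
          rw [Finset.mem_union, Finset.mem_filter, Finset.mem_Icc, Finset.mem_Icc]
          by_cases h : p ≤ R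
          · left
            exact ⟨hp.1.1, h⟩
          · right
            exact ⟨hp.1, hp.2, not_le.mp h⟩
      _ ≤ _ := by
          refine (Finset.card_union_le _ _).trans ?_
          rw [Nat.card_Icc]
          omega
  have h3 : ((((Finset.Icc 1 x).filter (fun p => p.Prime ∧ p % d = a % d)).card : ℕ) : ℝ) ≤
      R + (((Finset.Icc 1 x).filter (fun p => (p.Prime ∧ p % d = a % d) ∧ R < p)).card : ℝ) := by
    exact_mod_cast h2
  linarith

theorem sb_g (x d a R p : ℕ) (hp : p ∈ SP d R) :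
    1 / (p : ℝ) ≤ (sb x d a R).selbergTerms p := by
  have hpp := (mem_SP.mp hp).1.2
  have h3 : 2 ≤ p := hpp.two_le
  have h4 : (2:ℝ) ≤ p := by exact_mod_cast h3
  rw [selbergTerms_apply, hpp.primeFactors, Finset.prod_singleton]
  have h5 : (sb x d a R).nu p = (p:ℝ)⁻¹ := rfl
  rw [h5, one_div]
  have h6 : (1:ℝ) ≤ (1 - (p:ℝ)⁻¹)⁻¹ := by
    apply (one_le_inv₀ _).mpr
    · have : (0:ℝ) ≤ (p:ℝ)⁻¹ := by positivity
      linarith
    · have : (p:ℝ)⁻¹ < 1 := inv_lt_one_of_one_lt₀ (by linarith)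
      linarith
  have h7 : (0:ℝ) ≤ (p:ℝ)⁻¹ := by positivity
  nlinarith

theorem FF_le_of_le (g g' : ℕ → ℝ) (P : Finset ℕ) (h0 : ∀ p ∈ P, 0 ≤ g p)
    (h : ∀ p ∈ P, g p ≤ g' p) (x : ℕ) : FF g P x ≤ FF g' P x := by
  unfold FF
  apply Finset.sum_le_sum
  intro A hA
  rw [Finset.mem_filter, Finset.mem_powerset] at hA
  exact Finset.prod_le_prod (fun p hp => h0 p (hA.1 hp)) (fun p hp => h p (hA.1 hp))

theorem sb_lower (x d a z : ℕ) (hd : 0 < d) :
    Real.log (z + 1) ≤ 2 * ((d : ℝ) / d.totient) * SS (sb x d a z) z := by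
  classical
  set s := sb x d a z with hs
  have hprod : s.prodPrimes = ∏ p ∈ SP d z, p := rfl
  have hSS : FF (fun p => s.selbergTerms p) (SP d z) z ≤ SS s z := by
    unfold FF SS
    have hinj : Set.InjOn (fun A : Finset ℕ => ∏ p ∈ A, p)
        (((SP d z).powerset.filter (fun A => ∏ p ∈ A, p ≤ z) : Finset (Finset ℕ)) :
          Set (Finset ℕ)) := by
      intro A hA B hB hAB
      have hA' := Finset.mem_filter.mp (Finset.mem_coe.mp hA)
      have hB' := Finset.mem_filter.mp (Finset.mem_coe.mp hB)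
      rw [Finset.mem_powerset] at hA' hB'
      have h1 : (∏ p ∈ A, p).primeFactors = A :=
        Nat.primeFactors_prod (fun p hp => (mem_SP.mp (hA'.1 hp)).1.2)
      have h2 : (∏ p ∈ B, p).primeFactors = B :=
        Nat.primeFactors_prod (fun p hp => (mem_SP.mp (hB'.1 hp)).1.2)
      simp only at hAB
      rw [← h1, ← h2, hAB]
    have h3 : ∀ A ∈ (SP d z).powerset.filter (fun A => ∏ p ∈ A, p ≤ z),
        ∏ p ∈ A, s.selbergTerms p = s.selbergTerms (∏ p ∈ A, p) := by
      intro A hA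
      rw [Finset.mem_filter, Finset.mem_powerset] at hA
      symm
      apply selbergTerms_isMultiplicative.map_prod_of_subset_primeFactors s.prodPrimes
      rw [hprod, primeFactors_SP]
      exact hA.1
    rw [Finset.sum_congr rfl h3]
    rw [← Finset.sum_image (f := fun l => s.selbergTerms l) hinj]
    apply Finset.sum_le_sum_of_subset_of_nonneg
    · intro l hl
      rw [Finset.mem_image] at hl
      obtain ⟨A, hA, rfl⟩ := hl
      rw [Finset.mem_filter, Finset.mem_powerset] at hA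
      rw [Finset.mem_filter, Nat.mem_divisors]
      refine ⟨⟨?_, prodPrimes_ne_zero⟩, hA.2⟩
      rw [hprod]
      exact Finset.prod_dvd_prod_of_subset _ _ _ hA.1
    · intro l hl _
      rw [Finset.mem_filter, Nat.mem_divisors] at hl
      exact (selbergTerms_pos hl.1.1).le
  have h1 : FF (fun p => 1 / (p : ℝ)) (SP d z) z ≤ FF (fun p => s.selbergTerms p) (SP d z) z :=
    FF_le_of_le _ _ _ (fun p _ => by positivity) (fun p hp => sb_g x d a z p hp) z
  have h3 := harmonic_le z
  have h4 := FF_sdiff (Nat.primesLE z) d.primeFactors z (fun p hp =>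
    (Nat.prime_of_mem_primeFactors hp).pos)
  have h5 : FF (fun p => 1 / (p : ℝ)) (Nat.primesLE z \ d.primeFactors) z ≤
      FF (fun p => 1 / (p : ℝ)) (SP d z) z := by
    apply FF_subset
    · intro p hp
      rw [Finset.mem_sdiff, Nat.mem_primesLE, Nat.mem_primeFactors] at hp
      rw [mem_SP]
      exact ⟨hp.1, fun h => hp.2 ⟨hp.1.2, h, hd.ne'⟩⟩
    · intro p _
      positivity
  have h6 : ∏ p ∈ d.primeFactors, (1 + 1 / (p : ℝ)) ≤ (d : ℝ) / d.totient := by
    have ht : (0:ℝ) < d.totient := by exact_mod_cast Nat.totient_pos.mpr hd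
    have e1 : (d.totient : ℝ) = d * ∏ p ∈ d.primeFactors, (1 - (p : ℝ)⁻¹) := by
      have := Nat.totient_eq_mul_prod_factors d
      have h7 : ((d.totient : ℚ) : ℝ) = ((d * ∏ p ∈ d.primeFactors, (1 - (p : ℚ)⁻¹) : ℚ) : ℝ) :=
        congrArg (fun q : ℚ => (q : ℝ)) this
      push_cast at h7
      exact h7
    have e2 : (∏ p ∈ d.primeFactors, (1 + 1 / (p : ℝ))) *
        (∏ p ∈ d.primeFactors, (1 - (p : ℝ)⁻¹)) ≤ 1 := by
      rw [← Finset.prod_mul_distrib]
      apply Finset.prod_le_one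
      · intro p hp
        have hp2 : (2:ℝ) ≤ p := by exact_mod_cast (Nat.prime_of_mem_primeFactors hp).two_le
        have : (p:ℝ)⁻¹ < 1 := inv_lt_one_of_one_lt₀ (by linarith)
        apply mul_nonneg
        · positivity
        · linarith
      · intro p hp
        rw [one_div]
        nlinarith [sq_nonneg ((p:ℝ)⁻¹)]
    rw [le_div_iff₀ ht, e1]
    have hd' : (0:ℝ) ≤ d := by positivity
    nlinarith
  have hFn : 0 ≤ FF (fun p => 1 / (p : ℝ)) (SP d z) z :=
    FF_nonneg _ _ (fun q _ => by positivity) _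
  have hFn' : 0 ≤ FF (fun p => 1 / (p : ℝ)) (Nat.primesLE z \ d.primeFactors) z :=
    FF_nonneg _ _ (fun q _ => by positivity) _
  have hl : Real.log (z + 1) ≤ ∑ a ∈ Finset.Icc 1 z, 1 / (a : ℝ) := by
    have := log_add_one_le_harmonic z
    rw [harmonic_eq_sum_Icc] at this
    push_cast at this
    simpa [one_div] using this
  have hdt : (0:ℝ) ≤ (d : ℝ) / d.totient := by positivity
  calc Real.log (z + 1) ≤ 2 * FF (fun p => 1 / (p : ℝ)) (Nat.primesLE z) z := hl.trans h3
    _ ≤ 2 * ((∏ p ∈ d.primeFactors, (1 + 1 / (p : ℝ))) *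
          FF (fun p => 1 / (p : ℝ)) (Nat.primesLE z \ d.primeFactors) z) := by linarith
    _ ≤ 2 * (((d : ℝ) / d.totient) * FF (fun p => 1 / (p : ℝ)) (SP d z) z) := by
        gcongr
    _ ≤ 2 * (((d : ℝ) / d.totient) * SS s z) := by
        have := h1.trans hSS
        gcongr
    _ = _ := by ring

theorem bt_core (x d a z : ℕ) (hd : 0 < d) (hz : 1 ≤ z) :
    ((((Finset.Icc 1 x).filter (fun p => p.Prime ∧ p % d = a % d)).card : ℕ) : ℝ) ≤
      z + 2 * x / (d.totient * Real.log (z + 1)) + (z : ℝ) ^ 4 := by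
  have h1 := sb_sifted x d a z
  have h2 := selberg_bound (sb x d a z) z hz
  have h3 := sb_lower x d a z hd
  set s := sb x d a z with hs
  have hS := SS_pos s z hz
  have hzpos : (0:ℝ) < z := by exact_mod_cast hz
  have hdpos : (0:ℝ) < d := by exact_mod_cast hd
  have hlog : 0 < Real.log (z + 1) := Real.log_pos (by linarith)
  have ht : (0:ℝ) < d.totient := by exact_mod_cast Nat.totient_pos.mpr hd
  have hmass : s.totalMass = (x:ℝ) / d := rfl
  have h4 : s.totalMass * (SS s z)⁻¹ ≤ 2 * x / (d.totient * Real.log (z + 1)) := by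
    rw [hmass, ← div_eq_mul_inv, div_div, div_le_div_iff₀ (by positivity) (by positivity)]
    have h5 : (d.totient : ℝ) * Real.log (z + 1) ≤ 2 * (d * SS s z) := by
      calc (d.totient : ℝ) * Real.log (z + 1)
          ≤ d.totient * (2 * ((d : ℝ) / d.totient) * SS s z) := by gcongr
        _ = 2 * (d * SS s z) := by field_simp
    have hx : (0:ℝ) ≤ x := by positivity
    nlinarith
  have h5 : ∑ d1 ∈ s.prodPrimes.divisors with d1 ≤ z, ∑ d2 ∈ s.prodPrimes.divisors with d2 ≤ z,
        (s.nu d1)⁻¹ * (s.nu d2)⁻¹ * |s.rem (d1.lcm d2)| ≤ (z : ℝ) ^ 4 := by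
    have hb : ∑ d1 ∈ s.prodPrimes.divisors with d1 ≤ z, (d1 : ℝ) ≤ (z : ℝ) ^ 2 := by
      calc ∑ d1 ∈ s.prodPrimes.divisors with d1 ≤ z, (d1 : ℝ)
          ≤ ∑ d1 ∈ Finset.Icc 1 z, (d1 : ℝ) := by
            apply Finset.sum_le_sum_of_subset_of_nonneg
            · intro l hl
              rw [Finset.mem_filter, Nat.mem_divisors] at hl
              rw [Finset.mem_Icc]
              exact ⟨Nat.pos_of_dvd_of_pos hl.1.1 (Nat.pos_of_ne_zero hl.1.2), hl.2⟩
            · intro l _ _
              positivity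
        _ ≤ ∑ d1 ∈ Finset.Icc 1 z, (z : ℝ) := by
            apply Finset.sum_le_sum
            intro l hl
            exact_mod_cast (Finset.mem_Icc.mp hl).2
        _ = _ := by
            rw [Finset.sum_const, Nat.card_Icc, nsmul_eq_mul]
            push_cast
            ring
    calc _ ≤ ∑ d1 ∈ s.prodPrimes.divisors with d1 ≤ z, ∑ d2 ∈ s.prodPrimes.divisors with d2 ≤ z,
          (d1 : ℝ) * d2 := by
          apply Finset.sum_le_sum
          intro d1 hd1
          apply Finset.sum_le_sum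
          intro d2 hd2
          rw [Finset.mem_filter, Nat.mem_divisors] at hd1 hd2
          have e1 : (s.nu d1)⁻¹ = (d1 : ℝ) := inv_inv _
          have e2 : (s.nu d2)⁻¹ = (d2 : ℝ) := inv_inv _
          have e3 : |s.rem (d1.lcm d2)| ≤ 1 :=
            sb_rem x d a z (d1.lcm d2) hd (Nat.lcm_dvd hd1.1.1 hd2.1.1)
          rw [e1, e2]
          have e4 : (0:ℝ) ≤ (d1 : ℝ) * d2 := by positivity
          nlinarith
      _ = (∑ d1 ∈ s.prodPrimes.divisors with d1 ≤ z, (d1 : ℝ)) ^ 2 := by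
          rw [sq, Finset.sum_mul_sum]
      _ ≤ ((z : ℝ) ^ 2) ^ 2 := by
          apply pow_le_pow_left₀ _ hb
          exact Finset.sum_nonneg (fun i _ => by positivity)
      _ = _ := by ring
  linarith

theorem bt : T_BT := by
  refine ⟨36, by norm_num, ?_⟩
  intro x d a hx hd hdx _
  have hx1 : (2:ℝ) ≤ x := by exact_mod_cast hx
  have hx0 : (0:ℝ) < x := by linarith
  set w : ℝ := (x:ℝ) ^ (1 / 16 : ℝ) with hw
  have hw16 : w ^ 16 = x := by
    rw [hw, ← Real.rpow_natCast, ← Real.rpow_mul hx0.le]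
    norm_num
  have hw1 : 1 ≤ w := Real.one_le_rpow (by linarith) (by norm_num)
  have hw0 : 0 < w := by linarith
  set R := ⌊w⌋₊ with hR
  have hR1 : 1 ≤ R := Nat.one_le_floor_iff w |>.mpr hw1
  have hRw : (R:ℝ) ≤ w := Nat.floor_le hw0.le
  have hwR : w < R + 1 := Nat.lt_floor_add_one w
  have h1 := bt_core x d a R hd hR1
  have ht : (0:ℝ) < d.totient := by exact_mod_cast Nat.totient_pos.mpr hd
  have hlogx : Real.log x = 16 * Real.log w := by
    rw [← hw16, Real.log_pow]
    norm_num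
  have hlogx0 : 0 < Real.log x := Real.log_pos (by linarith)
  have hlogw0 : 0 < Real.log w := by linarith
  have hdw : (d:ℝ) ≤ w ^ 4 := by
    have h2 : (d:ℝ) ^ 4 ≤ (w ^ 4) ^ 4 := by
      calc (d:ℝ) ^ 4 ≤ x := by exact_mod_cast hdx
        _ = (w ^ 4) ^ 4 := by rw [← hw16]; ring
    exact le_of_pow_le_pow_left₀ (by norm_num) (by positivity) h2
  have htw : (d.totient : ℝ) ≤ w ^ 4 := by
    have : (d.totient : ℝ) ≤ d := by exact_mod_cast Nat.totient_le d
    linarith
  have h2 : 2 * (x:ℝ) / (d.totient * Real.log (R + 1)) ≤ 32 * x / (d.totient * Real.log x) := by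
    have h3 : Real.log w ≤ Real.log (R + 1) := Real.log_le_log hw0 hwR.le
    rw [hlogx]
    calc 2 * (x:ℝ) / (d.totient * Real.log (R + 1)) ≤ 2 * (x:ℝ) / (d.totient * Real.log w) := by
          gcongr
      _ = _ := by
          field_simp
          norm_num
  have h3 : (w ^ 4) ≤ 2 * x / (d.totient * Real.log x) := by
    rw [le_div_iff₀ (by positivity)]
    have h4 : Real.log x ≤ 2 * w ^ 8 := by
      have h5 : Real.log (w ^ 8) ≤ w ^ 8 - 1 := Real.log_le_sub_one_of_pos (by positivity)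
      rw [Real.log_pow] at h5
      push_cast at h5
      linarith
    calc w ^ 4 * (d.totient * Real.log x) ≤ w ^ 4 * (w ^ 4 * (2 * w ^ 8)) := by gcongr
      _ = 2 * w ^ 16 := by ring
      _ = 2 * x := by rw [hw16]
  have h4 : (R:ℝ) ≤ w ^ 4 := by
    calc (R:ℝ) ≤ w := hRw
      _ = w ^ 1 := (pow_one w).symm
      _ ≤ w ^ 4 := pow_le_pow_right₀ hw1 (by norm_num)
  have h5 : (R:ℝ) ^ 4 ≤ w ^ 4 := by gcongr
  have h6 : 36 * (x:ℝ) / (d.totient * Real.log x) =
      32 * x / (d.totient * Real.log x) + 2 * (2 * x / (d.totient * Real.log x)) := by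
    ring
  rw [h6]
  linarith

end Pool.Agent.H48.PF
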